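import Pool.Agent.P.MP_163cb0_co.Cex

set_option autoImplicit false

namespace Pool.Agent.Results.MP_163cb0_co.Oriented
open Pool.Agent.P.MP_163cb0_co

/-- An oriented graph on 13 vertices in which every independent set of initial vertices of longest
paths misses some longest path. -/
theorem result :
    ∃ A : Fin 13 → Fin 13 → Prop, (∀ u, ¬ A u u) ∧ (∀ u v, A u v → ¬ A v u) ∧
      ∃ n : ℕ,
        (∀ (m : ℕ) (q : Fin (m + 1) → Fin 13), Function.Injective q →
          (∀ i : Fin m, A (q i.castSucc) (q i.succ)) → m ≤ n) ∧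
        ∀ S : Set (Fin 13), (∀ u ∈ S, ∀ v ∈ S, ¬ A u v) →
          (∀ s ∈ S, ∃ p : Fin (n + 1) → Fin 13, Function.Injective p ∧
            (∀ i : Fin n, A (p i.castSucc) (p i.succ)) ∧ p 0 = s) →
          ∃ p : Fin (n + 1) → Fin 13, Function.Injective p ∧
            (∀ i : Fin n, A (p i.castSucc) (p i.succ)) ∧ ∀ i, p i ∉ S := by
  refine ⟨D.Adj, ?_, ?_, 10, le_ten, fun S hind horig => ?_⟩
  · show ∀ u, ¬ adj u u = true
    decide +kernel
  · show ∀ u v, adj u v = true → ¬ adj v u = true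
    decide +kernel
  have hS : ∀ s ∈ S, s = 0 ∨ s = 1 ∨ s = 2 := by
    intro s hs
    obtain ⟨p, hinj, hadj, hp⟩ := horig s hs
    have := ext_start 10 10 p le_rfl hinj hadj
    rw [hp] at this
    exact origin_eleven s this
  by_contra hcon
  have meet : ∀ p : Fin 11 → Fin 13, Function.Injective p →
      (∀ i : Fin 10, D.Adj (p i.castSucc) (p i.succ)) → ∃ i, p i ∈ S := by
    intro p h1 h2
    by_contra h
    exact hcon ⟨p, h1, h2, fun i hi => h ⟨i, hi⟩⟩
  obtain ⟨i, hi⟩ := meet pa pa_inj pa_adj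
  obtain ⟨j, hj⟩ := meet pb pb_inj pb_adj
  obtain ⟨k, hk⟩ := meet pc pc_inj pc_adj
  have a01 : D.Adj 0 1 := by show adj 0 1 = true; decide
  have a12 : D.Adj 1 2 := by show adj 1 2 = true; decide
  have a20 : D.Adj 2 0 := by show adj 2 0 = true; decide
  have n01 : ¬ ((0 : Fin 13) ∈ S ∧ (1 : Fin 13) ∈ S) := fun hh => hind 0 hh.1 1 hh.2 a01
  have n12 : ¬ ((1 : Fin 13) ∈ S ∧ (2 : Fin 13) ∈ S) := fun hh => hind 1 hh.1 2 hh.2 a12
  have n20 : ¬ ((2 : Fin 13) ∈ S ∧ (0 : Fin 13) ∈ S) := fun hh => hind 2 hh.1 0 hh.2 a20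
  have hA : (1 : Fin 13) ∈ S ∨ (2 : Fin 13) ∈ S := by
    rcases hS _ hi with h | h | h
    · exact absurd h (pa_miss i)
    · exact Or.inl (h ▸ hi)
    · exact Or.inr (h ▸ hi)
  have hB : (0 : Fin 13) ∈ S ∨ (2 : Fin 13) ∈ S := by
    rcases hS _ hj with h | h | h
    · exact Or.inl (h ▸ hj)
    · exact absurd h (pb_miss j)
    · exact Or.inr (h ▸ hj)
  have hC : (0 : Fin 13) ∈ S ∨ (1 : Fin 13) ∈ S := by
    rcases hS _ hk with h | h | h
    · exact Or.inl (h ▸ hk)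
    · exact Or.inr (h ▸ hk)
    · exact absurd h (pc_miss k)
  tauto

end Pool.Agent.Results.MP_163cb0_co.Oriented
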