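import Pool.Agent.P.MP_163cb0_co.Base

set_option autoImplicit false

namespace Pool.Agent.Results.MP_163cb0_co.StrongAllLengths

theorem result (n m : ℕ) (hm : 18 ≤ m) (hn : m ≤ n) :
    (∀ (V : Type) [Fintype V] (A : V → V → Prop), Fintype.card V = n →
      (∀ s t, A s t → ¬ A t s) → (∀ s t, Relation.ReflTransGen A s t) →
      IsGreatest {k | ∃ l : List V, l.Nodup ∧ l.IsChain A ∧ l.length = k} m →
      ∃ S : Set V, (∀ s ∈ S, ∀ t ∈ S, ¬ A s t) ∧
        (∀ l : List V, l.Nodup → l.IsChain A → l.length = m → ∃ s ∈ l, s ∈ S) ∧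
        ∀ s ∈ S, ∃ l : List V, l.Nodup ∧ l.IsChain A ∧ l.length = m ∧ l.head? = some s) ↔
    n = m :=
  Pool.Agent.LP163.main n m hm hn

/-- The instance n = 19, m = 18: the statement of Q1 fails for some loopless finite digraph. -/
theorem not_all :
    ¬ ∀ (V : Type) [Fintype V] (A : V → V → Prop) (m : ℕ), (∀ s, ¬ A s s) →
      IsGreatest {k | ∃ l : List V, l.Nodup ∧ l.IsChain A ∧ l.length = k} m →
      ∃ S : Set V, (∀ s ∈ S, ∀ t ∈ S, ¬ A s t) ∧
        (∀ l : List V, l.Nodup → l.IsChain A → l.length = m → ∃ s ∈ l, s ∈ S) ∧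
        ∀ s ∈ S, ∃ l : List V, l.Nodup ∧ l.IsChain A ∧ l.length = m ∧ l.head? = some s := by
  intro h
  have h19 := (result 19 18 le_rfl (by norm_num)).1
    (fun V _ A _ hA _ hm => h V A 18 (fun s hs => hA s s hs hs) hm)
  omega

end Pool.Agent.Results.MP_163cb0_co.StrongAllLengths
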